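import Mathlib
import Pool.Agent.Helper62.Weber.Stmt

/-!
# Project WC (MP_e74dc5_nt): the layers at which a prime can divide the class number quotient

THEOREM.  Let `l` be an odd prime and `r = v_2(l - 1)` if `l = 1 mod 4`, `r = v_2(l^2 - 1)` if
`l = 3 mod 4`.  If `RE_n^+ / <-1, ε_n>` has an element of order `l` then `8 * 4^n < 16^r * l`
(known: Fukuda-Komatsu, `2^n < 4^r * l` up to a constant).

Every `Prop` below is one module (`WC MODULE <name>`): prove `theorem c<name> : <name>`, where the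
statements of the other modules are not needed (each one is independent).
-/

set_option autoImplicit false

open Polynomial Helper62.Weber

noncomputable section

namespace Pool.Agent.Helper93.WC

/-- the integers `(-1)^(m-1) * C(l,m) / l` (so `(1 - y)^l = 1 - y^l - l * ∑ cf l m * y^m`) -/
def cf (l m : ℕ) : ℤ := (-1) ^ (m - 1) * ((l.choose m / l : ℕ) : ℤ)

/-- `∑_(0<m<l) cf l m * y^m` -/
def sT {S : Type*} [CommRing S] (l : ℕ) (y : S) : S :=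
  ∑ m ∈ Finset.Ico 1 l, ((cf l m : ℤ) : S) * y ^ m

/-- `((1 + y^l) s(y) - (1 - y^l) s(-y)) * ∑_(i<2^(r-1)) y^(2li)` -/
def gT {S : Type*} [CommRing S] (l r : ℕ) (y : S) : S :=
  ((1 + y ^ l) * sT l y - (1 - y ^ l) * sT l (-y)) * ∑ i ∈ Finset.range (2 ^ (r - 1)),
    y ^ (2 * l * i)

/-- the class of an odd prime -/
def rr (l : ℕ) : ℕ := if l % 4 = 1 then padicValNat 2 (l - 1) else padicValNat 2 (l ^ 2 - 1)

/-- the exponents `5^(k * 2^(n-r))` -/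
def ex (n r k : ℕ) : ℕ := 5 ^ (k * 2 ^ (n - r))

/-- MODULE ISU (20 lines).  `1 - z^j` divides `1 - (z^j)^(2^(n+1)) = 1 - (-1)^j = 2`; and
`1 + z^j = 1 - z^(j + 2^(n+1))`, where `j + 2^(n+1)` is odd. -/
def ISU : Prop := ∀ (S : Type) [CommRing S] (n j : ℕ) (z : S), z ^ 2 ^ (n + 1) = -1 →
  IsUnit (2 : S) → Odd j → IsUnit (1 - z ^ j) ∧ IsUnit (1 + z ^ j)

/-- MODULE FER (100 lines).  Write `A_k = 1 - y_k^l`, `B_k = 1 + y_k^l` (units), `s_k = sT l y_k`,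
`t_k = sT l (-y_k)`.  For `l` an odd prime `(1 - y)^l = (1 - y^l) - l * sT l y` (binomial theorem,
`l ∣ C(l,m)` for `0 < m < l`, `(-y)^l = -y^l`) and (replace `y` by `-y`)
`(1 + y)^l = (1 + y^l) - l * sT l (-y)`.  As `l^2 = 0` in `S`:
`∏ (B_k - l t_k)^(a_k) = ∏ B_k^(a_k) * (1 - l * ∑ a_k t_k / B_k)`, and the same with `A_k`, `s_k`.
The hypothesis becomes `∏ A ∏ B (1 - l ∑ a_k t_k/B_k) = ∏ A ∏ B (1 - l ∑ a_k s_k/A_k)`, so that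
`l * ∑ a_k (s_k/A_k - t_k/B_k) = 0`.  Multiply by `1 - c`: since `c = y_k^(l*2^r)` one has
`1 - c = A_k B_k ∑_(i<2^(r-1)) y_k^(2li)` and hence `(1 - c)(s_k/A_k - t_k/B_k) = gT l r y_k`. -/
def FER : Prop := ∀ (S : Type) [CommRing S] (l r : ℕ), l.Prime → Odd l → 1 ≤ r →
  ((l : S)) ^ 2 = 0 → ∀ (K : ℕ) (a : Fin K → ℕ) (y : Fin K → S) (c : S),
  (∀ k, IsUnit (1 - y k ^ l)) → (∀ k, IsUnit (1 + y k ^ l)) →
  (∀ k, y k ^ (l * 2 ^ r) = c) →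
  (∏ k, (1 - y k ^ l) ^ a k) * (∏ k, (1 + y k) ^ a k) ^ l =
    (∏ k, (1 + y k ^ l) ^ a k) * (∏ k, (1 - y k) ^ a k) ^ l →
  (l : S) * ∑ k, (a k : S) * gT l r (y k) = 0

/-- MODULE CHI (120 lines).  Put `y_k = z^(E_k)`; `1 ± y_k`, `1 ± y_k^3` are units of `S` (see
ISU: `1 - z^j` divides `2` for odd `j`).  In the unit group put `W = ∏ ((1 - y_k)/(1 + y_k))^(a_k)`.
Since `σ z = z^3` and `(y^2 + y + 1)/(y^2 - y + 1) = ((1 - y^3)/(1 + y^3)) ((1 + y)/(1 - y))` the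
hypothesis says `h^l = σ(W) / W` (in particular `h` is a unit, as `h^l` is one).  For a unit `u` put
`χ(u) = ψ(u) u^(-l)`: this is multiplicative, commutes with `σ` (as `ψσ = σψ`) and has the form
`1 + l x` (as `ψ u = u^l + l w`).  Hence `χ(h^l) = (1 + l x)^l = 1` (`l^2 = 0`), so
`σ(χ(W)) = χ(σ W) = χ(W)`.  Iterate: `σ^(2^(n-1))` fixes `χ(W)`; but
`σ^(2^(n-1)) z = z^(3^(2^(n-1)))= -z` since `3^(2^(n-1)) = 1 + 2^(n+1) mod 2^(n+2)` for `n ≥ 2`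
(and `z^(2^(n+2)) = 1`), so it maps `y_k` to `-y_k` (`E_k` odd) and `W` to `W^(-1)`.  Therefore
`χ(W)^2 = 1`; with `χ(W) = 1 + l x` this gives `2 l x = 0`, `l x = 0`, `χ(W) = 1`, i.e.
`ψ(W) = W^l`, which is the claim after clearing denominators. -/
def CHI : Prop := ∀ (S : Type) [CommRing S] (l n : ℕ), l.Prime → Odd l → 2 ≤ n →
  ((l : S)) ^ 2 = 0 → IsUnit (2 : S) → ∀ (z : S), z ^ 2 ^ (n + 1) = -1 →
  ∀ (ψ σ : S →+* S), ψ z = z ^ l → σ z = z ^ 3 → (∀ x, ψ (σ x) = σ (ψ x)) →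
  (∀ x, ∃ w, ψ x = x ^ l + (l : S) * w) →
  ∀ (K : ℕ) (a E : Fin K → ℕ) (h : S), (∀ k, Odd (E k)) →
  h ^ l * ∏ k, ((z ^ E k) ^ 2 - z ^ E k + 1) ^ a k = ∏ k, ((z ^ E k) ^ 2 + z ^ E k + 1) ^ a k →
  (∏ k, (1 - (z ^ E k) ^ l) ^ a k) * (∏ k, (1 + z ^ E k) ^ a k) ^ l =
    (∏ k, (1 + (z ^ E k) ^ l) ^ a k) * (∏ k, (1 - z ^ E k) ^ a k) ^ l

/-- MODULE QUO (120 lines; uses the statements ISU, FER, CHI as hypotheses).
Let `I = span {C (l^2), X^(2^(n+1)) + 1}` in `ℤ[X]` and `S = ℤ[X] ⧸ I`, `z` the class of `X`.  The maps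
`expand ℤ l` and `expand ℤ 3` preserve `I` (`X^(l 2^(n+1)) + 1` is a multiple of `X^(2^(n+1)) + 1` as
`l` is odd), so they induce commuting ring homomorphisms `ψ`, `σ` of `S`; `ψ x = x^l + l w` by
`Helper62.Weber.frob`.  `2` is a unit of `S` because `l^2` is odd.  The hypothesis on `P` gives the
equation of CHI with `h = P(z)`, `y_k = z^(E_k)`; FER (with `c = z^(l 2^r)`: `y_k^(l 2^r) = c`
because `2^(n+2) ∣ (E_k - 1) 2^r`) gives `l * ∑ a_k gT l r (z^(E_k)) = 0` in `S`, i.e.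
`l * T ∈ I` where `T = ∑ a_k gT l r (X^(E_k)) ∈ ℤ[X]`.  Write
`l T = l^2 A + (X^(2^(n+1)) + 1) B`; modulo `l` the monic polynomial `X^(2^(n+1)) + 1` is not a zero
divisor, so `l ∣ B` and `T = l A + (X^(2^(n+1)) + 1) B'`.  Apply the evaluation `ℤ[X] → F` at `z'`. -/
def QUO : Prop := ISU → FER → CHI → ∀ (l n r : ℕ), l.Prime → Odd l → 2 ≤ n → 1 ≤ r →
  ∀ (K : ℕ) (a E : Fin K → ℕ), (∀ k, Odd (E k)) → (∀ k, 2 ^ (n + 2) ∣ (E k - 1) * 2 ^ r) →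
  ∀ P : ℤ[X], (X ^ 2 ^ (n + 1) + 1 ∣ P ^ l * ∏ k, (X ^ (2 * E k) - X ^ E k + 1) ^ a k -
    ∏ k, (X ^ (2 * E k) + X ^ E k + 1) ^ a k) →
  ∀ (F : Type) [Field F] [CharP F l] (z : F), z ^ 2 ^ (n + 1) = -1 →
    ∑ k, (a k : F) * gT l r (z ^ E k) = 0

/-- MODULE GSU (70 lines).  In a field of characteristic `l` the integer `cf l m` (`0 < m < l`)
becomes `1/m`: `m C(l,m) = l C(l-1,m-1)` and `C(l-1,m-1) = (-1)^(m-1)` in `F`.  Then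
`(1+y^l) s(y) - (1-y^l) s(-y) = (s(y) - s(-y)) + y^l (s(y) + s(-y))`
`= 2 ∑_(m odd < l) y^m/m + 2 ∑_(m even, 0 < m < l) y^(m+l)/m = 2 ∑_(m odd < 2l, m ≠ l) y^m/m`,
and multiplying by `∑_(i<2^(r-1)) y^(2li)` gives the sum over all odd `m < l 2^r` prime to `l`. -/
def GSU : Prop := ∀ (F : Type) [Field F] (l r : ℕ) [CharP F l], l.Prime → Odd l → 1 ≤ r →
  ∀ y : F, gT l r y = 2 * ∑ m ∈ (Finset.range (l * 2 ^ r)).filter (fun m => Odd m ∧ ¬ l ∣ m),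
    y ^ m / (m : F)

/-- MODULE EXT (90 lines).  `R = 2^r 2^d` and `N = 2^r R` is the order of `z`.  Put
`ρ = m0 + 2^r v < R`.  Multiply the hypothesis for `i` by `z^(-(1+2^r i) ρ)` and add over `i < R`:
with `ω = z^(2^r)` (a primitive `R`-th root of unity) the coefficient of `a_k w_k^m / m` is
`z^(m - ρ) ∑_i ω^(i(m-ρ))`, which is `0` unless `m = ρ mod R`, and `R z^(m-ρ) = R (z^R)^j` for
`m = ρ + R j`.  `R` is a power of two, so not zero in `F`.  For `m = ρ + R j` one has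
`w_k^m = w_k^(m0)` since `w_k^(2^r) = 1`, `m` is odd, and `m < l 2^r` iff `v + 2^d j < l`. -/
def EXT : Prop := ∀ (F : Type) [Field F] (l r d n : ℕ) [CharP F l], l.Prime → Odd l → 1 ≤ r →
  n + 2 = r + (r + d) → ∀ (z : F), IsPrimitiveRoot z (2 ^ (n + 2)) →
  ∀ (K : ℕ) (a : Fin K → ℕ) (w : Fin K → F), (∀ k, w k ^ 2 ^ r = 1) →
  (∀ i : ℕ, ∑ k, (a k : F) * ∑ m ∈ (Finset.range (l * 2 ^ r)).filter
    (fun m => Odd m ∧ ¬ l ∣ m), (z ^ (1 + 2 ^ r * i) * w k) ^ m / (m : F) = 0) →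
  ∀ m0 v : ℕ, Odd m0 → m0 < 2 ^ r → v < 2 ^ d →
    (∑ k, (a k : F) * w k ^ m0) * ∑ j ∈ (Finset.range l).filter
      (fun j => v + j * 2 ^ d < l ∧ ¬ l ∣ m0 + 2 ^ r * (v + j * 2 ^ d)),
        (z ^ 2 ^ (r + d)) ^ j / ((m0 + 2 ^ r * (v + j * 2 ^ d) : ℕ) : F) = 0

/-- MODULE VAN (30 lines).  The polynomial `∑ a_k X^k` over `F` is not zero and has degree less than
`2^(r-1)`; the `2^(r-1)` elements `κ^(m0)`, `m0` odd, `m0 < 2^r`, are different. -/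
def VAN : Prop := ∀ (F : Type) [Field F] (l r : ℕ) [CharP F l], 1 ≤ r → ∀ κ : F,
  IsPrimitiveRoot κ (2 ^ r) → ∀ a : Fin (2 ^ (r - 1)) → ℕ, (¬ ∀ k, l ∣ a k) →
    ∃ m0 : ℕ, Odd m0 ∧ m0 < 2 ^ r ∧ ∑ k, (a k : F) * (κ ^ (k : ℕ)) ^ m0 ≠ 0

/-- MODULE CMB (120 lines).  Let `R = 2^r D`, `X_v = m0 + 2^r v`; the denominators are `X_v + j R`.
There is exactly one `w* < l` with `m0 + 2^r w* = 0 mod l`; let `v*` be its residue modulo `D`.  For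
`v < D`, `v ≠ v*`, no term is left out.  Let `J = Q + 1` for `v < l mod D` and `J = Q` for
`v ≥ l mod D`, `Q = l / D`: the sum is over `j < J`.  If `D > l` take `v < l`, `v ≠ v*`: the only
term is `1 / X_v`, not zero.  If `D ≤ l`: the polynomial
`N_J(X) = ∑_(j<J) κ^j ∏_(i<J, i≠j) (X + i R)` has degree at most `J - 1`, is not zero (its value at
`0` is `∏_(0<i<J) iR ≠ 0` as `J ≤ l`) and vanishes at `X_v` (multiply the equation by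
`∏ (X_v + iR) ≠ 0`); the `X_v`, `v < D ≤ l`, are different in `F`.  So at most `Q` of the
`v < l mod D` and at most `Q - 1` of the other `v` are different from `v*`:
`D - 1 ≤ 2Q - 1` and `D^2 ≤ 2QD ≤ 2l`. -/
def CMB : Prop := ∀ (F : Type) [Field F] (l r D m0 : ℕ) [CharP F l] (κ : F), l.Prime → Odd l →
  κ ≠ 0 → 2 ≤ D → m0 < 2 ^ r → Nat.Coprime D l →
  (∀ v < D, ∑ j ∈ (Finset.range l).filter
      (fun j => v + j * D < l ∧ ¬ l ∣ m0 + 2 ^ r * (v + j * D)),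
        κ ^ j / ((m0 + 2 ^ r * (v + j * D) : ℕ) : F) = 0) → D ^ 2 ≤ 2 * l

/-- MODULE WKK (60 lines).  `5^(2^(n-r)) = 1 + R h` with `R = 2^(n+2-r)`, `h` odd
(`Helper62.Weber.five_pow`), and `2^(n+2) ∣ R^2`; hence `5^(k 2^(n-r)) = (1 + R h)^k` is congruent to
`1 + k R h` modulo `2^(n+2)`. -/
def WKK : Prop := ∀ (F : Type) [Field F] (n r : ℕ), 1 ≤ r → r ≤ n → 2 * r ≤ n + 2 → ∀ z : F,
  IsPrimitiveRoot z (2 ^ (n + 2)) → IsPrimitiveRoot (z ^ (ex n r 1 - 1)) (2 ^ r) ∧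
    (∀ k, z ^ (ex n r k - 1) = (z ^ (ex n r 1 - 1)) ^ k) ∧
    (∀ k, 2 ^ (n + 2) ∣ (ex n r k - 1) * 2 ^ r)

/-- MODULE LEV (60 lines).  `rr l = v_2(l-1)` for `l = 1 mod 4` and `v_2(l^2-1)` for `l = 3 mod 4`.
For `e ≥ rr l`: some power `l^k` is `1 + 2^e c` with `c` odd (squaring raises the valuation of
`l^k - 1` by one; see `Helper62.Weber.levels`).  The bounds: `2^(rr l) ∣ l - 1`, respectively
`2^(rr l - 1) ∣ l + 1` (as `l - 1` is twice an odd number). -/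
def LEV : Prop := ∀ l : ℕ, l.Prime → Odd l → 2 ≤ rr l ∧
  (∀ e, rr l ≤ e → ∃ k c : ℕ, l ^ k = 1 + 2 ^ e * c ∧ Odd c) ∧
  (l % 4 = 1 → 2 ^ rr l ≤ l - 1) ∧ 2 ^ rr l ≤ 2 * (l + 1)

/-- MODULE BAD (40 lines): `Helper62.Weber.badPhi` (file `Weber/Act.lean`) for a general level `r`:
the same proof with `descent hl (r - 1) hk (n - r)`. -/
def BAD : Prop := ∀ (n l r : ℕ) (hn : 1 ≤ n), l.Prime → Odd l → 1 ≤ r → r ≤ n →
  (∀ e, r ≤ e → ∃ k c : ℕ, l ^ k = 1 + 2 ^ e * c ∧ Odd c) → Bad l n →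
  ∃ a ∈ Lam (Phi n r hn) l, ¬ ∀ k, (l : ℤ) ∣ a k

/-- MODULE POL (70 lines).  Let `V = iB n (vl m)`, an integral element of `L n`; by
`Helper62.Weber.int_poly` `V = aeval (z n) P` with `P ∈ ℤ[X]`.  As in the proof of
`Helper62.Weber.layer` (see `hFV` there) `V^l * ∏ (y_k^2 - y_k + 1)^(a_k) = ∏ (y_k^2 + y_k + 1)^(a_k)`
with `y_k = z^(5^(k 2^(n-r)))`.  So the difference polynomial vanishes at `z n`, whose minimal
polynomial over `ℤ` is `X^(2^(n+1)) + 1 = cyclotomic (2^(n+2)) ℤ`. -/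
def POL : Prop := ∀ (n l r : ℕ) (hn : 1 ≤ n), l.Prime → 1 ≤ r → r ≤ n →
  ∀ (a : Fin (2 ^ (r - 1)) → ℕ) (m : Mo n), Phi n r hn (fun k => (a k : ℤ)) = (l : ℤ) • m →
  ∃ P : ℤ[X], (X ^ 2 ^ (n + 1) + 1 ∣
    P ^ l * ∏ k : Fin (2 ^ (r - 1)), (X ^ (2 * ex n r k) - X ^ ex n r k + 1) ^ a k -
      ∏ k : Fin (2 ^ (r - 1)), (X ^ (2 * ex n r k) + X ^ ex n r k + 1) ^ a k)

/-- MODULE CN1 (40 lines).  Like `Helper62.Weber.card_S` (file `Weber/Count.lean`):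
`(2^M)^(#S) ≤ ∏ l ≤ (10 * 2^(r-1))^(2^(r-1)) ≤ 2^((r+3) 2^(r-1))`, `r = min n t`
(`Helper62.Weber.prod_bound`, `Helper62.Weber.nontriv`). -/
def CN1 : Prop := ∀ (n t M : ℕ), 1 ≤ n → 3 ≤ t → ∀ S : Finset ℕ,
  (∀ l ∈ S, l.Prime ∧ Odd l ∧ Cls t l ∧ Bad l n ∧ 2 ^ M ≤ l) →
    M * S.card ≤ (min n t + 3) * 2 ^ (min n t - 1)

/-- MODULE CN2 (90 lines, pure arithmetic).  `n ≤ t`: `c n ≤ 6 * 2^(n-1)` (as `t + 3 ≤ 6 (t-2)`), sum
at most `6 * 2^t`.  `t < n ≤ 2t`: `c n ≤ 3 * 2^t`, sum at most `3 t 2^t`.  `n = 2t + j`, `j ≥ 1`: with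
`A = (t+3) 2^(t-1)` one has `c n ≤ A / (2j+3)`, which is `0` for `2j + 3 > A`; the sum over `j` is at
most `(A/2) ∑_(2 ≤ i ≤ A) 1/i ≤ (A/2) log A ≤ (A/2) (2 t log 2)` since `A ≤ 4^t` (for example by
`harmonic_le_one_add_log`), at most `(t + 3) 2^(t-2) * 1.4 t ≤ 0.7 t^2 2^t`.  In total at most
`(6/9 + 1 + 0.7) t^2 2^t`. -/
def CN2 : Prop := ∀ (t : ℕ), 3 ≤ t → ∀ c : ℕ → ℕ,
  (∀ n, 1 ≤ n → n ≤ t → (t - 2) * c n ≤ (n + 3) * 2 ^ (n - 1)) →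
  (∀ n, t < n → (t - 2) * c n ≤ (t + 3) * 2 ^ (t - 1)) →
  (∀ n, 2 * t < n → (2 * n + 3 - 4 * t) * c n ≤ (t + 3) * 2 ^ (t - 1)) →
  ∀ N : ℕ, ∑ n ∈ Finset.Icc 1 N, c n ≤ 3 * t ^ 2 * 2 ^ t

end Pool.Agent.Helper93.WC
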