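import Pool.Agent.Helper93.WC.Cnt
import Pool.Agent.Helper62.WC.M_ISU
import Pool.Agent.Helper45.WC.FER
import Pool.Agent.Helper39.WC.M_CHI
import Pool.Agent.Helper18.WC.M_QUO
import Pool.Agent.Helper27.WC.M_GSU
import Pool.Agent.Helper78.WC.M_EXT
import Pool.Agent.Helper8.WC.M_VAN
import Pool.Agent.Helper72.WC.M_CMB
import Pool.Agent.Helper6.WC.M_WKK
import Pool.Agent.Helper19.WC.M_LEV
import Pool.Agent.Helper47.WC.M_BAD
import Pool.Agent.Helper78.WC.M_POL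
import Pool.Agent.Helper37.WC.M_CN1
import Pool.Agent.Helper27.WC.M_CN2

/-!
# Project WC: all modules
-/

set_option autoImplicit false

namespace Pool.Agent.Helper93.WC

theorem cLEV' : LEV := Pool.Agent.Helper19.WC.cLEV

theorem cCN1' : CN1 := Pool.Agent.Helper37.WC.cCN1

theorem cCN2' : CN2 := Pool.Agent.Helper27.WC.cCN2

theorem wc_main (l n : ℕ) (hn : 1 ≤ n) (hl : l.Prime) (ho : Odd l)
    (hb : Helper62.Weber.Bad l n) : 2 ^ (2 * n + 3) < 2 ^ (4 * rr l) * l :=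
  main Pool.Agent.Helper62.WC.cISU Pool.Agent.Helper45.WC.cFER Pool.Agent.Helper39.WC.cCHI
    Pool.Agent.Helper18.WCQUO.cQUO Pool.Agent.Helper27.WC.cGSU Pool.Agent.Helper78.WC.cEXT
    Pool.Agent.Helper8.WC.cVAN Pool.Agent.Helper72.WC.cCMB Pool.Agent.Helper6.WC.cWKK
    cLEV' Pool.Agent.Helper47.WC.cBAD Pool.Agent.Helper78.WC.cPOL l n hn hl ho hb

end Pool.Agent.Helper93.WC
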