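import Pool.Agent.Helper93.WC.Fin

/-!
# Project WC: counting pairs
-/

set_option autoImplicit false

open Polynomial Helper62.Weber

noncomputable section

namespace Pool.Agent.Helper93.WC

theorem cls_val {t l : ℕ} (h : Cls t l) : padicValNat 2 (l ^ 2 - 1) = t := by
  obtain ⟨c, hc, he⟩ := h
  have : Fact (Nat.Prime 2) := ⟨Nat.prime_two⟩
  have e : l ^ 2 - 1 = 2 ^ t * c := by omega
  have hc0 : c ≠ 0 := by
    rintro rfl
    exact absurd hc (by decide)
  rw [e, padicValNat.mul (pow_ne_zero _ two_ne_zero) hc0, padicValNat.prime_pow,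
    padicValNat.eq_zero_of_not_dvd (fun h2 => (Nat.not_even_iff_odd.2 hc) (even_iff_two_dvd.2 h2)),
    add_zero]

theorem rr_le {t l : ℕ} (hl : l.Prime) (h : Cls t l) : rr l ≤ t := by
  have h0 := cls_val h
  unfold rr
  split_ifs with h1
  · rw [← h0]
    have : Fact (Nat.Prime 2) := ⟨Nat.prime_two⟩
    have hd : l - 1 ∣ l ^ 2 - 1 := by
      have := Nat.sub_dvd_pow_sub_pow l 1 2
      simpa using this
    have hne : l ^ 2 - 1 ≠ 0 := by
      have := hl.two_le
      have h3 : 4 ≤ l ^ 2 := by nlinarith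
      omega
    rw [← padicValNat_dvd_iff_le (p := 2) hne]
    exact pow_padicValNat_dvd.trans hd
  · exact h0.le

theorem cls_iff {t l : ℕ} (h0 : 1 < l) : Cls t l ↔ 2 ^ t ∣ l ^ 2 - 1 ∧ ¬ 2 ^ (t + 1) ∣ l ^ 2 - 1 := by
  have h3 : 1 ≤ l ^ 2 := Nat.one_le_pow _ _ (by omega)
  constructor
  · rintro ⟨c, hc, he⟩
    have e : l ^ 2 - 1 = 2 ^ t * c := by omega
    refine ⟨⟨c, e⟩, ?_⟩
    rintro ⟨b, hb⟩
    rw [e, pow_succ, mul_assoc] at hb
    have h1 : c = 2 * b := Nat.eq_of_mul_eq_mul_left (by positivity) hb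
    rw [h1] at hc
    exact (Nat.not_even_iff_odd.2 hc) (even_two_mul b)
  · rintro ⟨⟨c, hc⟩, h2⟩
    refine ⟨c, ?_, by omega⟩
    rw [← Nat.not_even_iff_odd]
    rintro ⟨b, hb⟩
    apply h2
    exact ⟨b, by rw [hc, hb, pow_succ]; ring⟩

theorem pairs (hCN1 : CN1) (hCN2 : CN2)
    (hmain : ∀ l n : ℕ, 1 ≤ n → l.Prime → Odd l → Bad l n →
      2 ^ (2 * n + 3) < 2 ^ (4 * rr l) * l) (t : ℕ) (ht : 3 ≤ t) (S : Finset (ℕ × ℕ))
    (hS : ∀ p ∈ S, p.1.Prime ∧ Odd p.1 ∧ Cls t p.1 ∧ 1 ≤ p.2 ∧ Bad p.1 p.2) :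
    S.card ≤ 3 * t ^ 2 * 2 ^ t := by
  classical
  set T : ℕ → Finset ℕ := fun n => (S.filter (fun p => p.2 = n)).image Prod.fst with hT
  have hTmem : ∀ n, ∀ l ∈ T n, (l, n) ∈ S := by
    intro n l hl
    rw [hT] at hl
    simp only [Finset.mem_image, Finset.mem_filter] at hl
    obtain ⟨p, ⟨hp, hpn⟩, hpl⟩ := hl
    rw [← hpl, ← hpn]
    exact hp
  have hTcard : ∀ n, (T n).card = (S.filter (fun p => p.2 = n)).card := by
    intro n
    rw [hT]
    apply Finset.card_image_of_injOn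
    intro p hp q hq hpq
    have hp2 : p ∈ S.filter (fun p => p.2 = n) := hp
    have hq2 : q ∈ S.filter (fun p => p.2 = n) := hq
    rw [Finset.mem_filter] at hp2 hq2
    exact Prod.ext hpq (hp2.2.trans hq2.2.symm)
  obtain ⟨N, hN⟩ : ∃ N, ∀ p ∈ S, p.2 ≤ N := ⟨S.sup Prod.snd, fun p hp => Finset.le_sup hp⟩
  have hsum : S.card = ∑ n ∈ Finset.Icc 1 N, (T n).card := by
    rw [Finset.card_eq_sum_card_fiberwise (f := Prod.snd) (t := Finset.Icc 1 N)]
    · exact Finset.sum_congr rfl fun n _ => (hTcard n).symm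
    · intro p hp
      exact Finset.mem_coe.2 (Finset.mem_Icc.2 ⟨(hS p hp).2.2.2.1, hN p hp⟩)
  have hcn : ∀ n M : ℕ, 1 ≤ n → (∀ l ∈ T n, 2 ^ M ≤ l) →
      M * (T n).card ≤ (min n t + 3) * 2 ^ (min n t - 1) := by
    intro n M hn hM
    refine hCN1 n t M hn ht (T n) fun l hl => ?_
    obtain ⟨h1, h2, h3, -, h5⟩ := hS _ (hTmem n l hl)
    exact ⟨h1, h2, h3, h5, hM l hl⟩
  have hcl : ∀ n, ∀ l ∈ T n, 2 ^ (t - 2) ≤ l := by
    intro n l hl
    obtain ⟨h1, h2, h3, -, -⟩ := hS _ (hTmem n l hl)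
    exact cls_le ht h1 h2 h3
  rw [hsum]
  refine hCN2 t ht (fun n => (T n).card) ?_ ?_ ?_ N
  · intro n hn hnt
    have h1 := hcn n (t - 2) hn (hcl n)
    rwa [min_eq_left hnt] at h1
  · intro n hn
    have h1 := hcn n (t - 2) (by omega) (hcl n)
    rwa [min_eq_right hn.le] at h1
  · intro n hn
    have h1 := hcn n (2 * n + 3 - 4 * t) (by omega) ?_
    · rwa [min_eq_right (by omega : t ≤ n)] at h1
    · intro l hl
      obtain ⟨h1, h2, h3, h4, h5⟩ := hS _ (hTmem n l hl)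
      have h6 := hmain l n h4 h1 h2 h5
      have h7 := rr_le h1 h3
      have h8 : 2 ^ (2 * n + 3) < 2 ^ (4 * t) * l :=
        lt_of_lt_of_le h6 (Nat.mul_le_mul_right _ (Nat.pow_le_pow_right (by norm_num)
          (Nat.mul_le_mul_left 4 h7)))
      rcases le_or_gt (4 * t) (2 * n + 3) with h9 | h9
      · have e : 2 ^ (2 * n + 3) = 2 ^ (4 * t) * 2 ^ (2 * n + 3 - 4 * t) := by
          rw [← pow_add]
          congr 1
          omega
        rw [e] at h8
        exact (Nat.lt_of_mul_lt_mul_left h8).le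
      · have e : 2 * n + 3 - 4 * t = 0 := by omega
        rw [e, pow_zero]
        exact h1.one_le

/-- elements of order `l` give bad primes -/
theorem bad_of_order {n l : ℕ} (hn : 1 ≤ n) (hl : l.Prime)
    (q : relUnits n ⧸ (cycUnits n).subgroupOf (relUnits n)) (hq : orderOf q = l) : Bad l n := by
  induction q using QuotientGroup.induction_on with
  | H u =>
    refine bad_of_real hn u.2 (fun hu => ?_) ?_
    · have h1 : ((u : relUnits n) : relUnits n ⧸ (cycUnits n).subgroupOf (relUnits n)) = 1 := by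
        rw [QuotientGroup.eq_one_iff, Subgroup.mem_subgroupOf]
        exact hu
      rw [h1, orderOf_one] at hq
      exact hl.one_lt.ne hq
    · have h1 : ((u : relUnits n) : relUnits n ⧸ (cycUnits n).subgroupOf (relUnits n)) ^ l = 1 := by
        rw [← hq, pow_orderOf_eq_one]
      rw [← QuotientGroup.mk_pow, QuotientGroup.eq_one_iff, Subgroup.mem_subgroupOf] at h1
      exact h1

theorem finite_ncard_le {α : Type*} {A : Set α} {b : ℕ} (h : ∀ S : Finset α, (S : Set α) ⊆ A →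
    S.card ≤ b) : A.Finite ∧ A.ncard ≤ b := by
  have hfin : A.Finite := by
    by_contra hinf
    obtain ⟨S, hS, hc⟩ := Set.Infinite.exists_subset_card_eq hinf (b + 1)
    have := h S hS
    omega
  refine ⟨hfin, ?_⟩
  rw [Set.ncard_eq_toFinset_card A hfin]
  apply h
  rw [Set.Finite.coe_toFinset]

end Pool.Agent.Helper93.WC
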