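import Pool.Agent.Helper93.WC.St

/-!
# Project WC: assembly
-/

set_option autoImplicit false

open Polynomial Helper62.Weber

noncomputable section

namespace Pool.Agent.Helper93.WC

theorem sq_eq_one_iff_aux {F : Type*} [Field F] {x : F} (h : x ^ 2 = 1) : x = 1 ∨ x = -1 := by
  have h1 : (x - 1) * (x + 1) = 0 := by linear_combination h
  rcases mul_eq_zero.1 h1 with h2 | h2
  · exact Or.inl (sub_eq_zero.1 h2)
  · exact Or.inr (eq_neg_of_add_eq_zero_left h2)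

theorem main (hISU : ISU) (hFER : FER) (hCHI : CHI) (hQUO : QUO) (hGSU : GSU) (hEXT : EXT)
    (hVAN : VAN) (hCMB : CMB) (hWKK : WKK) (hLEV : LEV) (hBAD : BAD) (hPOL : POL)
    (l n : ℕ) (hn : 1 ≤ n) (hl : l.Prime) (ho : Odd l) (hb : Bad l n) :
    2 ^ (2 * n + 3) < 2 ^ (4 * rr l) * l := by
  obtain ⟨h2, hlev, -, -⟩ := hLEV l hl ho
  set r := rr l with hr
  rcases le_or_gt (n + 2) (2 * r) with hle | hgt
  · calc 2 ^ (2 * n + 3) < 2 ^ (4 * r) := Nat.pow_lt_pow_right (by norm_num) (by omega)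
      _ = 2 ^ (4 * r) * 1 := (mul_one _).symm
      _ ≤ 2 ^ (4 * r) * l := Nat.mul_le_mul_left _ hl.one_le
  obtain ⟨d, hd⟩ : ∃ d, n + 2 = r + (r + d) := ⟨n + 2 - 2 * r, by omega⟩
  have hd1 : 1 ≤ d := by omega
  have hrn : r ≤ n := by omega
  have hr1 : 1 ≤ r := by omega
  obtain ⟨a, m, hal, hm, hnd⟩ := lam_nat hn hl (hBAD n l r hn hl ho hr1 hrn hlev hb)
  obtain ⟨P, hP⟩ := hPOL n l r hn hl hr1 hrn a m hm
  have : Fact l.Prime := ⟨hl⟩
  let F := AlgebraicClosure (ZMod l)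
  have hchar : CharP F l := inferInstance
  have h2F : (2 : F) ≠ 0 := by
    intro h
    have h1 : ((2 : ℕ) : F) = 0 := by exact_mod_cast h
    rw [CharP.cast_eq_zero_iff F l] at h1
    have h3 := Nat.le_of_dvd (by norm_num) h1
    have h4 := hl.two_le
    have h5 : l = 2 := le_antisymm h3 h4
    rw [h5] at ho
    exact absurd ho (by decide)
  have hne : NeZero ((2 ^ (n + 2) : ℕ) : F) := ⟨by push_cast; exact pow_ne_zero _ h2F⟩
  obtain ⟨z, hz⟩ := HasEnoughRootsOfUnity.exists_primitiveRoot F (2 ^ (n + 2))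
  obtain ⟨hκ, hw, hdv⟩ := hWKK F n r hr1 hrn (by omega) z hz
  set κ := z ^ (ex n r 1 - 1) with hκd
  have hodd : ∀ k : Fin (2 ^ (r - 1)), Odd (ex n r k) := fun k => Odd.pow (by decide)
  have hz2 : z ^ 2 ^ (n + 1) = -1 := by
    have h1 : (z ^ 2 ^ (n + 1)) ^ 2 = 1 := by rw [← pow_mul, ← pow_succ, hz.pow_eq_one]
    have h2 : z ^ 2 ^ (n + 1) ≠ 1 := by
      intro h
      have h3 := (hz.pow_eq_one_iff_dvd _).1 h
      have h4 := Nat.le_of_dvd (by positivity) h3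
      have h5 : 2 ^ (n + 1) < 2 ^ (n + 2) := Nat.pow_lt_pow_right (by norm_num) (by omega)
      omega
    rcases sq_eq_one_iff_aux h1 with h | h
    · exact absurd h h2
    · exact h
  have key : ∀ i : ℕ, ∑ k : Fin (2 ^ (r - 1)), (a k : F) *
      ∑ m ∈ (Finset.range (l * 2 ^ r)).filter (fun m => Odd m ∧ ¬ l ∣ m),
        (z ^ (1 + 2 ^ r * i) * κ ^ (k : ℕ)) ^ m / (m : F) = 0 := by
    intro i
    have hzi : (z ^ (1 + 2 ^ r * i)) ^ 2 ^ (n + 1) = -1 := by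
      rw [← pow_mul, mul_comm, pow_mul, hz2]
      have : Odd (1 + 2 ^ r * i) := by
        obtain ⟨r', hr'⟩ : ∃ r', r = r' + 1 := ⟨r - 1, by omega⟩
        rw [hr']
        exact ⟨2 ^ r' * i, by ring⟩
      exact this.neg_one_pow
    have h1 := hQUO hISU hFER hCHI l n r hl ho (by omega) hr1 (2 ^ (r - 1)) a
      (fun k => ex n r k) hodd (fun k => hdv k) P hP F (z ^ (1 + 2 ^ r * i)) hzi
    have h3 : ∀ k : Fin (2 ^ (r - 1)), (z ^ (1 + 2 ^ r * i)) ^ ex n r k =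
        z ^ (1 + 2 ^ r * i) * κ ^ (k : ℕ) := by
      intro k
      rw [← hw k]
      have hpos : 1 ≤ ex n r k := Nat.one_le_pow _ _ (by norm_num)
      obtain ⟨c, hc⟩ := hdv k
      obtain ⟨x, hx⟩ : ∃ x, ex n r k = x + 1 := ⟨ex n r k - 1, by omega⟩
      rw [hx, Nat.add_sub_cancel] at hc ⊢
      rw [← pow_mul]
      have e : (1 + 2 ^ r * i) * (x + 1) = (1 + 2 ^ r * i) + x + (x * 2 ^ r) * i := by ring
      rw [e, hc, pow_add, pow_add, mul_assoc (2 ^ (n + 2)) c i, pow_mul z (2 ^ (n + 2)),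
        hz.pow_eq_one, one_pow, mul_one]
    have h4 : (2 : F) * ∑ k : Fin (2 ^ (r - 1)), (a k : F) *
      ∑ m ∈ (Finset.range (l * 2 ^ r)).filter (fun m => Odd m ∧ ¬ l ∣ m),
        (z ^ (1 + 2 ^ r * i) * κ ^ (k : ℕ)) ^ m / (m : F) = 0 := by
      rw [← h1, Finset.mul_sum]
      refine Finset.sum_congr rfl fun k _ => ?_
      rw [hGSU F l r hl ho hr1, h3 k]
      ring
    exact (mul_eq_zero.1 h4).resolve_left h2F
  obtain ⟨m0, hm0, hm0r, hne0⟩ := hVAN F l r hr1 κ hκ a hnd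
  have hwk : ∀ k : Fin (2 ^ (r - 1)), (κ ^ (k : ℕ)) ^ 2 ^ r = 1 := by
    intro k
    rw [← pow_mul, mul_comm, pow_mul, hκ.pow_eq_one, one_pow]
  have hfin : (2 ^ d) ^ 2 ≤ 2 * l := by
    refine hCMB F l r (2 ^ d) m0 (z ^ 2 ^ (r + d)) hl ho
      (pow_ne_zero _ (hz.ne_zero (by positivity))) ?_ hm0r ?_ ?_
    · calc 2 = 2 ^ 1 := rfl
        _ ≤ 2 ^ d := Nat.pow_le_pow_right (by norm_num) hd1
    · exact Nat.Coprime.pow_left _ (Nat.coprime_two_left.2 ho)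
    · intro v hv
      have h1 := hEXT F l r d n hl ho hr1 hd z hz (2 ^ (r - 1)) a (fun k => κ ^ (k : ℕ)) hwk key
        m0 v hm0 hm0r hv
      exact (mul_eq_zero.1 h1).resolve_left hne0
  have hlt : 2 ^ (2 * d) < 2 * l := by
    rw [← pow_mul, mul_comm d 2] at hfin
    rcases hfin.lt_or_eq with h | h
    · exact h
    · exfalso
      have h1 : 2 ^ (2 * d) = 2 * 2 ^ (2 * d - 1) := by
        rw [← pow_succ']
        congr 1
        omega
      rw [h1] at h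
      have h3 : l = 2 ^ (2 * d - 1) := by omega
      have h4 : Even l := by
        rw [h3]
        exact (Nat.even_pow.2 ⟨even_two, by omega⟩)
      exact (Nat.not_even_iff_odd.2 ho) h4
  have e1 : 2 * (2 ^ (4 * r) * l) = 2 ^ (4 * r) * (2 * l) := by ring
  have e2 : 2 * 2 ^ (2 * n + 3) = 2 ^ (4 * r) * 2 ^ (2 * d) := by
    rw [← pow_succ', ← pow_add]
    congr 1
    omega
  have e3 : 2 ^ (4 * r) * 2 ^ (2 * d) < 2 ^ (4 * r) * (2 * l) :=
    Nat.mul_lt_mul_of_pos_left hlt (by positivity)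
  omega

/-- every prime factor is large -/
theorem large (hLEV : LEV) (l n : ℕ) (hn : 1 ≤ n) (hl : l.Prime) (ho : Odd l)
    (h : 2 ^ (2 * n + 3) < 2 ^ (4 * rr l) * l) : 2 ^ (2 * n - 1) < (l + 1) ^ 5 := by
  obtain ⟨-, -, -, h2⟩ := hLEV l hl ho
  have h3 : 2 ^ (4 * rr l) ≤ (2 * (l + 1)) ^ 4 := by
    rw [mul_comm 4, pow_mul]
    exact Nat.pow_le_pow_left h2 4
  have h4 : 2 ^ (2 * n + 3) = 16 * 2 ^ (2 * n - 1) := by
    have : 2 * n + 3 = (2 * n - 1) + 4 := by omega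
    rw [this, pow_add]
    ring
  have h5 : 2 ^ (4 * rr l) * l ≤ (2 * (l + 1)) ^ 4 * (l + 1) :=
    Nat.mul_le_mul h3 (Nat.le_succ l)
  have h6 : (2 * (l + 1)) ^ 4 * (l + 1) = 16 * (l + 1) ^ 5 := by ring
  omega

end Pool.Agent.Helper93.WC
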