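import Pool.Agent.Helper93.WC.All

/-!
# MP_e74dc5_nt: the layers at which a prime can divide the class number quotient (not a hand-in)

`relUnits n` is the group `RE_n^+` of relative units of `𝔹_n = ℚ(X_n)`, `X_n = 2 cos (2π/2^(n+2))`,
and `cycUnits n` is the group generated by `-1` and the conjugates of `ε_n = (X_n + 1)/(X_n - 1)`
(both inside `ℝˣ`).
If the quotient has an element of order `l` (an odd prime), then `8 * 4^n < 16^r * l`, where
`2^r` is the exact power of `2` dividing `l - 1` (if `l = 1 mod 4`), respectively `l^2 - 1` (if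
`l = 3 mod 4`).
-/

set_option autoImplicit false

noncomputable section

namespace Pool.Agent.Helper93.WC.LayerB

open Helper62.Weber Pool.Agent.Helper93.WC

/-- the layer bound -/
theorem result (n l r : ℕ) (hn : 1 ≤ n) (hl : l.Prime) (h2 : l ≠ 2)
    (hr : r = if l % 4 = 1 then padicValNat 2 (l - 1) else padicValNat 2 (l ^ 2 - 1))
    (h : ∃ q : relUnits n ⧸ (cycUnits n).subgroupOf (relUnits n), orderOf q = l) :
    8 * 4 ^ n < 16 ^ r * l ∧ 2 ^ (2 * n - 1) < (l + 1) ^ 5 := by
  obtain ⟨q, hq⟩ := h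
  have ho : Odd l := hl.odd_of_ne_two h2
  have hb := bad_of_order hn hl q hq
  have h1 := wc_main l n hn hl ho hb
  refine ⟨?_, large cLEV' l n hn hl ho h1⟩
  have hr' : r = rr l := hr
  rw [hr']
  have e1 : 8 * 4 ^ n = 2 ^ (2 * n + 3) := by
    rw [pow_add, pow_mul]
    norm_num
    ring
  have e2 : 16 ^ rr l = 2 ^ (4 * rr l) := by
    rw [pow_mul]
    norm_num
  rw [e1, e2]
  exact h1

end Pool.Agent.Helper93.WC.LayerB
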